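import Mathlib

/-!
# The posets of Moebius and annular ladders
-/

universe u v

namespace Pool.Agent.X225.Dp

/-- the acting group -/
abbrev G := ℤ × ZMod 2

section Act

variable (X : Type) [AddAction G X]

variable {X}

/-- the shift -/
def sh (x : X) : X := ((1, 0) : G) +ᵥ x

/-- the involution -/
def ta (x : X) : X := ((0, 1) : G) +ᵥ x

theorem ta_ta (x : X) : ta (ta x) = x := by
  unfold ta
  rw [vadd_vadd]
  have h : (((0, 1) : G) + (0, 1)) = 0 := by decide
  rw [h, zero_vadd]

/-- `x` is one of `w`, `s w`, `s² w` -/
def Tr (x w : X) : Prop := x = w ∨ x = sh w ∨ x = sh (sh w)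

end Act

/-- the points of the poset -/
inductive Pt (X : Type) : Type
  | bot : Pt X
  | y (x : X) : Pt X
  | z (x : X) : Pt X
  | d (x : X) : Pt X

namespace Pt

variable {X : Type} [AddAction G X]

/-- the order -/
def le : Pt X → Pt X → Prop
  | bot, _ => True
  | y x, y w => x = w
  | y x, z w => Tr x w
  | y x, d w => Tr x w ∨ Tr x (ta w)
  | z x, z w => x = w
  | z x, d w => x = w ∨ x = ta w
  | d x, d w => x = w
  | y _, bot => False
  | z _, bot => False
  | z _, y _ => False
  | d _, bot => False
  | d _, y _ => False
  | d _, z _ => False

instance : PartialOrder (Pt X) where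
  le := le
  le_refl a := by
    cases a
    · trivial
    · exact rfl
    · exact rfl
    · exact rfl
  le_trans a b c hab hbc := by
    cases a <;> cases b <;> cases c <;> simp only [le] at hab hbc ⊢
    · rw [hab]; exact hbc
    · rw [hab]; exact hbc
    · rw [hab]; exact hbc
    · rw [← hbc]; exact hab
    · rcases hbc with rfl | rfl
      · exact Or.inl hab
      · exact Or.inr hab
    · rw [← hbc]; exact hab
    · rw [hab]; exact hbc
    · rw [hab]; exact hbc
    · rw [← hbc]; exact hab
    · rw [hab]; exact hbc
  le_antisymm a b hab hba := by
    cases a <;> cases b <;> simp only [le] at hab hba ⊢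
    · rw [hab]
    · rw [hab]
    · rw [hab]

theorem bot_le' (a : Pt X) : (bot : Pt X) ≤ a := trivial
theorem y_le_y (x w : X) : (y x ≤ y w) ↔ x = w := Iff.rfl
theorem y_le_z (x w : X) : (y x ≤ z w) ↔ Tr x w := Iff.rfl
theorem y_le_d (x w : X) : (y x ≤ d w) ↔ Tr x w ∨ Tr x (ta w) := Iff.rfl
theorem z_le_z (x w : X) : (z x ≤ z w) ↔ x = w := Iff.rfl
theorem z_le_d (x w : X) : (z x ≤ d w) ↔ x = w ∨ x = ta w := Iff.rfl
theorem d_le_d (x w : X) : (d x ≤ d w) ↔ x = w := Iff.rfl
theorem y_le_bot (x : X) : ¬ (y x ≤ bot) := id
theorem z_le_bot (x : X) : ¬ (z x ≤ bot) := id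
theorem d_le_bot (x : X) : ¬ (d x ≤ bot) := id
theorem z_le_y (x w : X) : ¬ (z x ≤ y w) := id
theorem d_le_y (x w : X) : ¬ (d x ≤ y w) := id
theorem d_le_z (x w : X) : ¬ (d x ≤ z w) := id

omit [AddAction G X] in
theorem finite_pt [Finite X] : Finite (Pt X) := by
  have e : Function.Surjective (fun p : Option (Fin 3 × X) =>
      (match p with
        | none => bot
        | some (0, x) => y x
        | some (1, x) => z x
        | some (2, x) => d x : Pt X)) := by
    rintro (_ | x | x | x)
    · exact ⟨none, rfl⟩
    · exact ⟨some (0, x), rfl⟩
    · exact ⟨some (1, x), rfl⟩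
    · exact ⟨some (2, x), rfl⟩
  exact Finite.of_surjective _ e

end Pt

/-- down functions -/
structure IsDown {P : Type u} [PartialOrder P] (f : P → P) : Prop where
  le : ∀ c, f c ≤ c
  mono : ∀ c d, c ≤ d → f c ≤ f d
  fixed : ∀ c d, c ≤ f d → f c = c

variable (P : Type u) [PartialOrder P]

/-- enough down functions -/
def Enough : Prop := ∀ c d : P, c ≤ d → ∃ f : P → P, IsDown f ∧ f d = c

open Pt

/-- a coloring invariant under the shift and changed by the involution gives enough down functions -/
theorem enough_of_coloring {X : Type} [AddAction G X] (χ : X → Bool) (hs : ∀ x, χ (sh x) = χ x)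
    (ht : ∀ x, χ (ta x) = !χ x) : Enough (Pt X) := by
  classical
  have hTr : ∀ x w : X, Tr x w → χ x = χ w := by
    rintro x w (rfl | rfl | rfl)
    · rfl
    · exact hs w
    · rw [hs, hs]
  -- projection to a point `y a`
  have h1 : ∀ a : X, IsDown (fun p : Pt X => if y a ≤ p then y a else bot) := by
    intro a
    refine ⟨fun p => ?_, fun p q hpq => ?_, fun p q hpq => ?_⟩
    · split_ifs with h
      · exact h
      · exact bot_le' _
    · split_ifs with h h' h'
      · exact le_rfl
      · exact absurd (h.trans hpq) h'
      · exact bot_le' _
      · exact bot_le' _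
    · have h2 : p = y a ∨ p = bot := by
        split_ifs at hpq with h
        · cases p with
          | bot => exact Or.inr rfl
          | y x => exact Or.inl (congrArg y hpq)
          | z x => exact absurd hpq (z_le_y _ _)
          | d x => exact absurd hpq (d_le_y _ _)
        · cases p with
          | bot => exact Or.inr rfl
          | y x => exact absurd hpq (y_le_bot _)
          | z x => exact absurd hpq (z_le_bot _)
          | d x => exact absurd hpq (d_le_bot _)
      rcases h2 with rfl | rfl
      · rw [if_pos le_rfl]
      · rw [if_neg (y_le_bot a)]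
  -- projection to a color
  let F : Bool → Pt X → Pt X := fun c p =>
    match p with
    | bot => bot
    | y x => if χ x = c then y x else bot
    | z x => if χ x = c then z x else bot
    | d x => if χ x = c then z x else z (ta x)
  have hF1 : ∀ c x, F c (y x) = if χ x = c then y x else bot := fun _ _ => rfl
  have hF2 : ∀ c x, F c (z x) = if χ x = c then z x else bot := fun _ _ => rfl
  have hF3 : ∀ c x, F c (d x) = if χ x = c then z x else z (ta x) := fun _ _ => rfl
  have hFd : ∀ c x, F c (d x) = z x ∧ χ x = c ∨ F c (d x) = z (ta x) ∧ χ x ≠ c := by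
    intro c x
    rw [hF3]
    split_ifs with h
    · exact Or.inl ⟨rfl, h⟩
    · exact Or.inr ⟨rfl, h⟩
  have h2 : ∀ c, IsDown (F c) := by
    intro c
    refine ⟨fun p => ?_, fun p q hpq => ?_, fun p q hpq => ?_⟩
    · cases p with
      | bot => exact le_rfl
      | y x =>
        rw [hF1]
        split_ifs
        · exact le_rfl
        · exact bot_le' _
      | z x =>
        rw [hF2]
        split_ifs
        · exact le_rfl
        · exact bot_le' _
      | d x =>
        rcases hFd c x with ⟨h, -⟩ | ⟨h, -⟩
        · rw [h]
          exact Or.inl rfl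
        · rw [h]
          exact Or.inr rfl
    · cases p with
      | bot => exact bot_le' _
      | y x =>
        rw [hF1]
        split_ifs with hc
        · cases q with
          | bot => exact absurd hpq (y_le_bot _)
          | y w =>
            obtain rfl : x = w := hpq
            rw [hF1, if_pos hc]
          | z w =>
            have h3 := hTr x w hpq
            rw [hF2, if_pos (h3 ▸ hc)]
            exact hpq
          | d w =>
            rcases hpq with h3 | h3
            · rw [hF3, if_pos ((hTr x w h3) ▸ hc)]
              exact h3
            · have h4 := hTr x _ h3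
              rw [ht, hc] at h4
              rw [hF3, if_neg (by rw [h4]; cases χ w <;> simp)]
              exact h3
        · exact bot_le' _
      | z x =>
        rw [hF2]
        split_ifs with hc
        · cases q with
          | bot => exact absurd hpq (z_le_bot _)
          | y w => exact absurd hpq (z_le_y _ _)
          | z w =>
            obtain rfl : x = w := hpq
            rw [hF2, if_pos hc]
          | d w =>
            rcases hpq with rfl | rfl
            · rw [hF3, if_pos hc]
            · rw [ht] at hc
              rw [hF3, if_neg (by rw [← hc]; cases χ w <;> simp)]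
        · exact bot_le' _
      | d x =>
        cases q with
        | bot => exact absurd hpq (d_le_bot _)
        | y w => exact absurd hpq (d_le_y _ _)
        | z w => exact absurd hpq (d_le_z _ _)
        | d w =>
          obtain rfl : x = w := hpq
          exact le_rfl
    · -- the image consists of fixed points
      have h3 : ∀ v : X, χ v = c → ∀ p : Pt X, p ≤ z v → F c p = p := by
        intro v hv p hp
        cases p with
        | bot => rfl
        | y x => rw [hF1, if_pos ((hTr x v hp).trans hv)]
        | z x =>
          obtain rfl : x = v := hp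
          rw [hF2, if_pos hv]
        | d x => exact absurd hp (d_le_z _ _)
      have h4 : ∀ p : Pt X, p ≤ bot → F c p = p := by
        intro p hp
        cases p with
        | bot => rfl
        | y x => exact absurd hp (y_le_bot _)
        | z x => exact absurd hp (z_le_bot _)
        | d x => exact absurd hp (d_le_bot _)
      cases q with
      | bot => exact h4 p hpq
      | y w =>
        rw [hF1] at hpq
        split_ifs at hpq with hc
        · cases p with
          | bot => rfl
          | y x =>
            obtain rfl : x = w := hpq
            rw [hF1, if_pos hc]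
          | z x => exact absurd hpq (z_le_y _ _)
          | d x => exact absurd hpq (d_le_y _ _)
        · exact h4 p hpq
      | z w =>
        rw [hF2] at hpq
        split_ifs at hpq with hc
        · exact h3 w hc p hpq
        · exact h4 p hpq
      | d w =>
        rcases hFd c w with ⟨h, hc⟩ | ⟨h, hc⟩
        · rw [h] at hpq
          exact h3 w hc p hpq
        · rw [h] at hpq
          refine h3 (ta w) ?_ p hpq
          rw [ht]
          cases c <;> cases h5 : χ w <;> simp_all
  have hid : IsDown (fun p : Pt X => p) :=
    ⟨fun _ => le_rfl, fun _ _ h => h, fun _ _ _ => rfl⟩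
  have hbot : IsDown (fun _ : Pt X => (bot : Pt X)) := by
    refine ⟨fun c => bot_le' c, fun _ _ _ => le_rfl, fun p q hpq => ?_⟩
    cases p with
    | bot => rfl
    | y x => exact absurd hpq (y_le_bot _)
    | z x => exact absurd hpq (z_le_bot _)
    | d x => exact absurd hpq (d_le_bot _)
  intro p q hpq
  cases p with
  | bot => exact ⟨_, hbot, rfl⟩
  | y a => exact ⟨_, h1 a, if_pos hpq⟩
  | z a =>
    cases q with
    | bot => exact absurd hpq (z_le_bot _)
    | y w => exact absurd hpq (z_le_y _ _)
    | z w =>
      obtain rfl : a = w := hpq
      exact ⟨_, hid, rfl⟩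
    | d w =>
      refine ⟨F (χ a), h2 _, ?_⟩
      rcases hpq with rfl | rfl
      · rw [hF3, if_pos rfl]
      · rw [hF3, if_neg]
        rw [ht]
        cases χ w <;> simp
  | d a =>
    cases q with
    | bot => exact absurd hpq (d_le_bot _)
    | y w => exact absurd hpq (d_le_y _ _)
    | z w => exact absurd hpq (d_le_z _ _)
    | d w =>
      obtain rfl : a = w := hpq
      exact ⟨_, hid, rfl⟩

/-- if the involution is a power of the shift at `x` then there are not enough down functions -/
theorem not_enough {X : Type} [AddAction G X] (x : X) (n : ℕ) (hn : sh^[n] x = ta x)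
    (hx : ta x ≠ x) (hsh : ∀ w : X, sh w ≠ w) : ¬ Enough (Pt X) := by
  intro h
  obtain ⟨f, hf, hfd⟩ := h (z x) (d x) (Or.inl rfl)
  have h1 : ∀ k : ℕ, f (z (sh^[k] x)) = z (sh^[k] x) := by
    intro k
    induction k with
    | zero => exact hf.fixed _ (d x) (by rw [hfd]; exact le_rfl)
    | succ k ih =>
      rw [Function.iterate_succ_apply']
      generalize sh^[k] x = w at ih ⊢
      have h2 : f (y (sh w)) = y (sh w) :=
        hf.fixed _ (z w) (by rw [ih]; exact Or.inr (Or.inl rfl))
      have h3 : f (y (sh (sh w))) = y (sh (sh w)) :=
        hf.fixed _ (z w) (by rw [ih]; exact Or.inr (Or.inr rfl))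
      have h4 : y (sh w) ≤ f (z (sh w)) := by
        rw [← h2]
        exact hf.mono _ _ (Or.inl rfl)
      have h5 : y (sh (sh w)) ≤ f (z (sh w)) := by
        rw [← h3]
        exact hf.mono _ _ (Or.inr (Or.inl rfl))
      have h6 := hf.le (z (sh w))
      cases h7 : f (z (sh w)) with
      | bot =>
        rw [h7] at h4
        exact absurd h4 (y_le_bot _)
      | y v =>
        rw [h7] at h4 h5
        have h8 : sh w = v := h4
        have h9 : sh (sh w) = v := h5
        exact absurd (h9.trans h8.symm) (hsh _)
      | z v =>
        rw [h7] at h6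
        obtain rfl : v = sh w := h6
        rfl
      | d v =>
        rw [h7] at h6
        exact absurd h6 (d_le_z _ _)
  have h2 := h1 n
  rw [hn] at h2
  have h3 : f (z (ta x)) ≤ f (d x) := hf.mono _ _ (Or.inr rfl)
  rw [h2, hfd] at h3
  exact hx h3

end Pool.Agent.X225.Dp
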