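import Pool.Agent.X225.Dp.Poset

/-!
# Ultraproducts of ladder posets
-/

namespace Pool.Agent.X225.Dp

open FirstOrder Filter Cardinal

/-- the action has no fixed points -/
def Free (X : Type) [AddAction G X] : Prop := ∀ g : G, g ≠ 0 → ∀ x : X, g +ᵥ x ≠ x

/-- the points are pairs of an orbit and a group element -/
theorem free_bij {X : Type} [AddAction G X] (hX : Free X) :
    Function.Bijective fun p : AddAction.orbitRel.Quotient G X × G => p.2 +ᵥ p.1.out := by
  have hmk : ∀ (g : G) (x : X),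
      (Quotient.mk'' (g +ᵥ x) : AddAction.orbitRel.Quotient G X) = Quotient.mk'' x := by
    intro g x
    apply Quotient.sound'
    exact ⟨g, rfl⟩
  constructor
  · rintro ⟨ω, g⟩ ⟨ω', g'⟩ h
    have h' : g +ᵥ ω.out = g' +ᵥ ω'.out := h
    have h1 : ω = ω' := by
      have h2 := congrArg (fun x : X => (Quotient.mk'' x : AddAction.orbitRel.Quotient G X)) h'
      simp only [hmk] at h2
      rw [Quotient.out_eq', Quotient.out_eq'] at h2
      exact h2
    subst h1
    have h3 : (-g' + g) +ᵥ ω.out = ω.out := by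
      rw [← vadd_vadd, h', vadd_vadd, neg_add_cancel, zero_vadd]
    have h4 : -g' + g = 0 := by
      by_contra h5
      exact hX _ h5 _ h3
    have h5 : g = g' := (neg_add_eq_zero.1 h4).symm
    rw [h5]
  · intro x
    have h1 : (Quotient.mk'' (Quotient.mk'' x : AddAction.orbitRel.Quotient G X).out :
        AddAction.orbitRel.Quotient G X) = Quotient.mk'' x := Quotient.out_eq' _
    have h2 := Quotient.exact' h1.symm
    obtain ⟨g, hg⟩ := h2
    exact ⟨⟨Quotient.mk'' x, g⟩, hg⟩

theorem mk_orbit {X : Type} [AddAction G X] (hu : Uncountable X) (hX : Free X) :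
    #X = #(AddAction.orbitRel.Quotient G X) := by
  have h1 : #X = #(AddAction.orbitRel.Quotient G X) * ℵ₀ := by
    rw [← Cardinal.mk_eq_aleph0 G, Cardinal.mul_def]
    exact (Cardinal.mk_congr (Equiv.ofBijective _ (free_bij hX))).symm
  rcases le_or_gt #(AddAction.orbitRel.Quotient G X) ℵ₀ with h | h
  · exfalso
    have h2 : #X ≤ ℵ₀ := by
      rw [h1]
      exact (mul_le_mul_left h ℵ₀).trans (by rw [Cardinal.aleph0_mul_aleph0])
    exact absurd (Cardinal.mk_le_aleph0_iff.1 h2) (not_countable_iff.2 hu)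
  · rw [h1, Cardinal.mul_aleph0_eq h.le]

theorem exists_equiv {X Y : Type} [AddAction G X] [AddAction G Y] (hu : Uncountable X)
    (hX : Free X) (hY : Free Y) (h : Nonempty (X ≃ Y)) :
    ∃ e : X ≃ Y, ∀ (g : G) x, e (g +ᵥ x) = g +ᵥ e x := by
  obtain ⟨e0⟩ := h
  have hu' : Uncountable Y := e0.injective.uncountable
  have h1 : #(AddAction.orbitRel.Quotient G X) = #(AddAction.orbitRel.Quotient G Y) := by
    rw [← mk_orbit hu hX, ← mk_orbit hu' hY]
    exact Cardinal.mk_congr e0
  obtain ⟨e1⟩ := Cardinal.eq.1 h1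
  let EX := Equiv.ofBijective _ (free_bij hX)
  let EY := Equiv.ofBijective _ (free_bij hY)
  refine ⟨EX.symm.trans ((e1.prodCongr (Equiv.refl G)).trans EY), fun g x => ?_⟩
  obtain ⟨⟨ω, g'⟩, rfl⟩ := EX.surjective x
  have h2 : g +ᵥ EX (ω, g') = EX (ω, g + g') := by
    change g +ᵥ (g' +ᵥ ω.out) = (g + g') +ᵥ ω.out
    rw [vadd_vadd]
  rw [h2]
  simp only [Equiv.trans_apply, Equiv.symm_apply_apply]
  change (g + g') +ᵥ (e1 ω).out = g +ᵥ (g' +ᵥ (e1 ω).out)
  rw [vadd_vadd]

/-- the ultraproduct -/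
def XU (U : Ultrafilter ℕ) (X : ℕ → Type) : Type := Quotient ((U : Filter ℕ).productSetoid X)

section

variable (U : Ultrafilter ℕ) {X Y : ℕ → Type}

/-- the class of a sequence -/
def cl (f : ∀ n, X n) : XU U X := Quotient.mk _ f

theorem cl_eq (f g : ∀ n, X n) : cl U f = cl U g ↔ ∀ᶠ n in U, f n = g n := Quotient.eq

theorem cl_surj (a : XU U X) : ∃ f, cl U f = a := by
  obtain ⟨f, hf⟩ := Quotient.exists_rep a
  exact ⟨f, hf⟩

variable [∀ n, AddAction G (X n)] [∀ n, AddAction G (Y n)]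

instance : AddAction G (XU U X) where
  vadd g := Quotient.map (fun (f : ∀ n, X n) n => g +ᵥ f n) (fun f f' h =>
    Filter.Eventually.mono h fun n (hn : f n = f' n) => by
      change g +ᵥ f n = g +ᵥ f' n
      rw [hn])
  zero_vadd a := by
    obtain ⟨f, rfl⟩ := cl_surj U a
    exact congrArg (cl U) (funext fun n => zero_vadd G (f n))
  add_vadd g h a := by
    obtain ⟨f, rfl⟩ := cl_surj U a
    exact congrArg (cl U) (funext fun n => add_vadd g h (f n))

theorem vadd_cl (g : G) (f : ∀ n, X n) : g +ᵥ cl U f = cl U fun n => g +ᵥ f n := rfl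

theorem sh_cl (f : ∀ n, X n) : sh (cl U f) = cl U fun n => sh (f n) := rfl

theorem ta_cl (f : ∀ n, X n) : ta (cl U f) = cl U fun n => ta (f n) := rfl

theorem free_XU (h : ∀ g : G, g ≠ 0 → ∀ᶠ n in U, ∀ x : X n, g +ᵥ x ≠ x) : Free (XU U X) := by
  intro g hg a ha
  obtain ⟨f, rfl⟩ := cl_surj U a
  rw [vadd_cl, cl_eq] at ha
  obtain ⟨n, h1, h2⟩ := (ha.and (h g hg)).exists
  exact h2 _ h1

omit [∀ n, AddAction G (X n)] in
theorem uncountable_XU [∀ n, Finite (X n)] (hU : (U : Filter ℕ) ≤ atTop)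
    (hc : ∀ n, n < Nat.card (X n)) : Uncountable (XU U X) := by
  classical
  rw [← not_countable_iff]
  intro hcount
  have hne : Nonempty (XU U X) := by
    have h0 : ∀ n, Nonempty (X n) := fun n =>
      (Nat.card_pos_iff.1 (lt_of_le_of_lt (Nat.zero_le n) (hc n))).1
    exact ⟨cl U fun n => (h0 n).some⟩
  obtain ⟨e, he⟩ := exists_surjective_nat (XU U X)
  choose F hF using fun k => cl_surj U (e k)
  have hg : ∀ n, ∃ x : X n, ∀ k < n, F k n ≠ x := by
    intro n
    by_contra hcon
    push Not at hcon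
    have hfin := Fintype.ofFinite (X n)
    have h1 : (Finset.univ : Finset (X n)) ⊆ (Finset.range n).image fun k => F k n := by
      intro x _
      obtain ⟨k, hk, hkx⟩ := hcon x
      exact Finset.mem_image.2 ⟨k, Finset.mem_range.2 hk, hkx⟩
    have h2 := Finset.card_le_card h1
    have h3 := h2.trans Finset.card_image_le
    rw [Finset.card_range, Finset.card_univ, ← Nat.card_eq_fintype_card] at h3
    exact absurd (hc n) (not_lt.2 h3)
  choose g hg using hg
  obtain ⟨k, hk⟩ := he (cl U g)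
  rw [← hF k, cl_eq] at hk
  obtain ⟨n, h1, h2⟩ := (hk.and (hU (eventually_gt_atTop k))).exists
  exact hg n k h2 h1

omit [∀ n, AddAction G (X n)] [∀ n, AddAction G (Y n)] in
theorem equiv_XU (h : ∀ n, Nonempty (X n ≃ Y n)) : Nonempty (XU U X ≃ XU U Y) := by
  have e : ∀ n, X n ≃ Y n := fun n => (h n).some
  refine ⟨Quotient.congr (Equiv.piCongrRight e) fun f g => ?_⟩
  change (∀ᶠ n in U, f n = g n) ↔ ∀ᶠ n in U, e n (f n) = e n (g n)
  constructor
  · exact fun h => h.mono fun n hn => by rw [hn]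
  · exact fun h => h.mono fun n hn => (e n).injective hn

/-! ### Ultraproducts of posets -/

/-- a poset as a structure -/
instance (Z : Type) [AddAction G Z] : Language.order.Structure (Pt Z) :=
  Language.orderStructure (Pt Z)

theorem relMap_le (Z : Type) [AddAction G Z] (x : Fin 2 → Pt Z) :
    Language.Structure.RelMap (L := Language.order) Language.orderRel.le x ↔ x 0 ≤ x 1 := Iff.rfl

/-- the class of a sequence of points -/
def pc (f : ∀ n, Pt (X n)) : (U : Filter ℕ).Product fun n => Pt (X n) := f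

omit [∀ n, AddAction G (X n)] in
theorem pc_surj (a : (U : Filter ℕ).Product fun n => Pt (X n)) : ∃ f, pc U f = a := by
  obtain ⟨f, hf⟩ := Quotient.exists_rep a
  exact ⟨f, hf⟩

omit [∀ n, AddAction G (X n)] in
theorem pc_eq (f g : ∀ n, Pt (X n)) : pc U f = pc U g ↔ ∀ᶠ n in U, f n = g n := Quotient.eq

theorem relMap_pc (x : Fin 2 → ∀ n, Pt (X n)) :
    Language.Structure.RelMap (L := Language.order) Language.orderRel.le
      (fun i => pc U (x i)) ↔ ∀ᶠ n in U, x 0 n ≤ x 1 n := by
  have h := Language.relMap_quotient_mk' (L := Language.order)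
    (s := (U : Filter ℕ).productSetoid fun n => Pt (X n))
    (ps := Language.Ultraproduct.setoidPrestructure (fun n => Pt (X n)) U)
    Language.orderRel.le x
  exact h

open Pt

/-- points of the ultraproduct -/
def F : Pt (XU U X) → (U : Filter ℕ).Product fun n => Pt (X n)
  | bot => pc U fun _ => bot
  | y a => Quotient.lift (fun f : ∀ n, X n => pc U fun n => y (f n))
      (fun f g (h : ∀ᶠ n in U, f n = g n) => (pc_eq U _ _).2 (h.mono fun n hn => by rw [hn])) a
  | z a => Quotient.lift (fun f : ∀ n, X n => pc U fun n => z (f n))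
      (fun f g (h : ∀ᶠ n in U, f n = g n) => (pc_eq U _ _).2 (h.mono fun n hn => by rw [hn])) a
  | d a => Quotient.lift (fun f : ∀ n, X n => pc U fun n => d (f n))
      (fun f g (h : ∀ᶠ n in U, f n = g n) => (pc_eq U _ _).2 (h.mono fun n hn => by rw [hn])) a

theorem F_bot : F U (bot : Pt (XU U X)) = pc U fun _ => bot := rfl
theorem F_y (f : ∀ n, X n) : F U (y (cl U f)) = pc U fun n => y (f n) := rfl
theorem F_z (f : ∀ n, X n) : F U (z (cl U f)) = pc U fun n => z (f n) := rfl
theorem F_d (f : ∀ n, X n) : F U (d (cl U f)) = pc U fun n => d (f n) := rfl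

/-- points of the ultraproduct of sequences -/
inductive Rep : Pt (XU U X) → (∀ n, Pt (X n)) → Prop
  | bot : Rep bot fun _ => bot
  | y (f : ∀ n, X n) : Rep (y (cl U f)) fun n => y (f n)
  | z (f : ∀ n, X n) : Rep (z (cl U f)) fun n => z (f n)
  | d (f : ∀ n, X n) : Rep (d (cl U f)) fun n => d (f n)

omit [∀ n, AddAction G (X n)] in
theorem exists_rep (a : Pt (XU U X)) : ∃ f, Rep U a f := by
  cases a with
  | bot => exact ⟨_, Rep.bot⟩
  | y a =>
    obtain ⟨f, rfl⟩ := cl_surj U a
    exact ⟨_, Rep.y f⟩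
  | z a =>
    obtain ⟨f, rfl⟩ := cl_surj U a
    exact ⟨_, Rep.z f⟩
  | d a =>
    obtain ⟨f, rfl⟩ := cl_surj U a
    exact ⟨_, Rep.d f⟩

theorem Rep.F_eq {a : Pt (XU U X)} {f : ∀ n, Pt (X n)} (h : Rep U a f) : F U a = pc U f := by
  cases h <;> rfl

theorem tr_iff (f g : ∀ n, X n) : (∀ᶠ n in U, Tr (f n) (g n)) ↔ Tr (cl U f) (cl U g) := by
  unfold Tr
  rw [sh_cl, sh_cl, cl_eq, cl_eq, cl_eq, Ultrafilter.eventually_or, Ultrafilter.eventually_or]

theorem Rep.le_iff {a b : Pt (XU U X)} {f g : ∀ n, Pt (X n)} (h : Rep U a f) (h' : Rep U b g) :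
    (∀ᶠ n in U, f n ≤ g n) ↔ a ≤ b := by
  cases h <;> cases h'
  · exact ⟨fun _ => trivial, fun _ => Eventually.of_forall fun _ => trivial⟩
  · exact ⟨fun _ => trivial, fun _ => Eventually.of_forall fun _ => trivial⟩
  · exact ⟨fun _ => trivial, fun _ => Eventually.of_forall fun _ => trivial⟩
  · exact ⟨fun _ => trivial, fun _ => Eventually.of_forall fun _ => trivial⟩
  · exact ⟨fun h => (h.exists.elim fun n hn => hn : False).elim, fun h => (h : False).elim⟩
  · exact (cl_eq U _ _).symm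
  · exact tr_iff U _ _
  · rw [y_le_d, ta_cl, ← tr_iff, ← tr_iff, ← Ultrafilter.eventually_or]
    rfl
  · exact ⟨fun h => (h.exists.elim fun n hn => hn : False).elim, fun h => (h : False).elim⟩
  · exact ⟨fun h => (h.exists.elim fun n hn => hn : False).elim, fun h => (h : False).elim⟩
  · exact (cl_eq U _ _).symm
  · rw [z_le_d, ta_cl, cl_eq, cl_eq, ← Ultrafilter.eventually_or]
    rfl
  · exact ⟨fun h => (h.exists.elim fun n hn => hn : False).elim, fun h => (h : False).elim⟩
  · exact ⟨fun h => (h.exists.elim fun n hn => hn : False).elim, fun h => (h : False).elim⟩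
  · exact ⟨fun h => (h.exists.elim fun n hn => hn : False).elim, fun h => (h : False).elim⟩
  · exact (cl_eq U _ _).symm

theorem F_le (a : Fin 2 → Pt (XU U X)) :
    Language.Structure.RelMap (L := Language.order) Language.orderRel.le
      (fun i => F U (a i)) ↔ a 0 ≤ a 1 := by
  choose f hf using fun i => exists_rep U (a i)
  have h1 : (fun i => F U (a i)) = fun i => pc U (f i) := funext fun i => (hf i).F_eq
  rw [h1, relMap_pc]
  exact (hf 0).le_iff U (hf 1)

theorem F_inj : Function.Injective (F U (X := X)) := by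
  intro a b h
  have h1 := F_le U ![a, b]
  have h2 := F_le U ![b, a]
  have h3 := F_le U ![a, a]
  have e1 : (fun i => F U ((![a, b] : Fin 2 → Pt (XU U X)) i)) =
      fun i => F U ((![a, a] : Fin 2 → Pt (XU U X)) i) := by
    funext i
    fin_cases i
    · rfl
    · exact h.symm
  have e2 : (fun i => F U ((![b, a] : Fin 2 → Pt (XU U X)) i)) =
      fun i => F U ((![a, a] : Fin 2 → Pt (XU U X)) i) := by
    funext i
    fin_cases i
    · exact h.symm
    · rfl
  rw [e1] at h1
  rw [e2] at h2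
  exact le_antisymm (h1.1 (h3.2 le_rfl)) (h2.1 (h3.2 le_rfl))

theorem F_surj [∀ n, Nonempty (X n)] : Function.Surjective (F U (X := X)) := by
  classical
  intro a
  obtain ⟨f, rfl⟩ := pc_surj U a
  have h : ∀ᶠ n in U, (f n = bot ∨ ∃ x, f n = y x) ∨ ((∃ x, f n = z x) ∨ ∃ x, f n = d x) := by
    refine Eventually.of_forall fun n => ?_
    cases h : f n with
    | bot => exact Or.inl (Or.inl rfl)
    | y x => exact Or.inl (Or.inr ⟨x, rfl⟩)
    | z x => exact Or.inr (Or.inl ⟨x, rfl⟩)
    | d x => exact Or.inr (Or.inr ⟨x, rfl⟩)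
  have hch : ∀ (c : ∀ n, X n → Pt (X n)), (∀ᶠ n in U, ∃ x, f n = c n x) →
      ∃ g : ∀ n, X n, ∀ᶠ n in U, c n (g n) = f n := by
    intro c hc
    refine ⟨fun n => if h : ∃ x, f n = c n x then h.choose else Classical.arbitrary _,
      hc.mono fun n hn => ?_⟩
    dsimp only
    rw [dif_pos hn]
    exact hn.choose_spec.symm
  rw [Ultrafilter.eventually_or, Ultrafilter.eventually_or, Ultrafilter.eventually_or] at h
  rcases h with (h | h) | (h | h)
  · refine ⟨bot, ?_⟩
    rw [F_bot, pc_eq]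
    exact h.mono fun n hn => hn.symm
  · obtain ⟨g, hg⟩ := hch (fun n => y) h
    refine ⟨y (cl U g), ?_⟩
    rw [F_y, pc_eq]
    exact hg
  · obtain ⟨g, hg⟩ := hch (fun n => z) h
    refine ⟨z (cl U g), ?_⟩
    rw [F_z, pc_eq]
    exact hg
  · obtain ⟨g, hg⟩ := hch (fun n => d) h
    refine ⟨d (cl U g), ?_⟩
    rw [F_d, pc_eq]
    exact hg

/-- maps of posets -/
def pm {Z W : Type} (e : Z → W) : Pt Z → Pt W
  | bot => bot
  | y x => y (e x)
  | z x => z (e x)
  | d x => d (e x)

theorem pm_le {Z W : Type} [AddAction G Z] [AddAction G W] (e : Z ≃ W)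
    (he : ∀ (g : G) x, e (g +ᵥ x) = g +ᵥ e x) (a b : Pt Z) : pm e a ≤ pm e b ↔ a ≤ b := by
  have hsh : ∀ x, sh (e x) = e (sh x) := fun x => (he _ _).symm
  have hta : ∀ x, ta (e x) = e (ta x) := fun x => (he _ _).symm
  have htr : ∀ x w, Tr (e x) (e w) ↔ Tr x w := by
    intro x w
    unfold Tr
    rw [hsh, hsh, e.apply_eq_iff_eq, e.apply_eq_iff_eq, e.apply_eq_iff_eq]
  cases a <;> cases b
  · exact Iff.rfl
  · exact Iff.rfl
  · exact Iff.rfl
  · exact Iff.rfl
  · exact Iff.rfl
  · exact e.apply_eq_iff_eq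
  · exact htr _ _
  · change _ ∨ _ ↔ _ ∨ _
    rw [hta, htr, htr]
  · exact Iff.rfl
  · exact Iff.rfl
  · exact e.apply_eq_iff_eq
  · change _ ∨ _ ↔ _ ∨ _
    rw [hta, e.apply_eq_iff_eq, e.apply_eq_iff_eq]
  · exact Iff.rfl
  · exact Iff.rfl
  · exact Iff.rfl
  · exact e.apply_eq_iff_eq

/-- equivalences of posets -/
def pe {Z W : Type} (e : Z ≃ W) : Pt Z ≃ Pt W where
  toFun := pm e
  invFun := pm e.symm
  left_inv a := by cases a <;> simp [pm]
  right_inv a := by cases a <;> simp [pm]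

/-- **The ultraproducts are isomorphic.** -/
theorem iso [∀ n, Nonempty (X n)] [∀ n, Nonempty (Y n)] (e : XU U X ≃ XU U Y)
    (he : ∀ (g : G) x, e (g +ᵥ x) = g +ᵥ e x) :
    Nonempty (((U : Filter ℕ).Product fun n => Pt (X n)) ≃[Language.order]
      ((U : Filter ℕ).Product fun n => Pt (Y n))) := by
  let EX := Equiv.ofBijective (F U (X := X)) ⟨F_inj U, F_surj U⟩
  let EY := Equiv.ofBijective (F U (X := Y)) ⟨F_inj U, F_surj U⟩
  refine ⟨{ toEquiv := (EX.symm.trans (pe e)).trans EY, map_fun' := ?_, map_rel' := ?_ }⟩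
  · intro n f
    exact isEmptyElim f
  · intro n R x
    cases R with
    | le =>
      obtain ⟨a, ha⟩ : ∃ a : Fin 2 → Pt (XU U X), ∀ i, EX (a i) = x i :=
        ⟨fun i => EX.symm (x i), fun i => EX.apply_symm_apply _⟩
      have h1 : x = fun i => F U (a i) := funext fun i => (ha i).symm
      have h2 : (((EX.symm.trans (pe e)).trans EY).toFun ∘ x) = fun i => F U (pm e (a i)) := by
        funext i
        change EY (pe e (EX.symm (x i))) = _
        rw [← ha i, Equiv.symm_apply_apply]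
        rfl
      rw [h2, h1, F_le, F_le]
      exact pm_le e he _ _

/-- **A first-order sentence does not distinguish the families.** -/
theorem sentence_iff [∀ n, Nonempty (X n)] [∀ n, Nonempty (Y n)] (e : XU U X ≃ XU U Y)
    (he : ∀ (g : G) x, e (g +ᵥ x) = g +ᵥ e x) (φ : Language.order.Sentence) :
    (∀ᶠ n in U, Pt (X n) ⊨ φ) ↔ ∀ᶠ n in U, Pt (Y n) ⊨ φ := by
  have h0 : ∀ Z : Type, Nonempty (Pt Z) := fun _ => ⟨bot⟩
  have h1 : ∀ n, Nonempty (Pt (X n)) := fun n => h0 _
  have h2 : ∀ n, Nonempty (Pt (Y n)) := fun n => h0 _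
  obtain ⟨i⟩ := iso U e he
  rw [← Language.Ultraproduct.sentence_realize, ← Language.Ultraproduct.sentence_realize]
  exact Language.StrongHomClass.realize_sentence i φ

end

end Pool.Agent.X225.Dp
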